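import Pool.Agent.H547_q.Eigen
import Pool.Agent.H916R2.Defs

/-!
# The cohomology of products of diagonal hypersurfaces over number fields: definitions
-/

set_option autoImplicit false

namespace Pool.Agent.H547_q

open Finset NumberField IsDedekindDomain Filter Topology Pool.Agent.H916R2

/-- A product of `r` diagonal hypersurfaces over the number field `k`: the factor with the number `j`
is the hypersurface `∑_l c_l (x_l ^ d - y_l ^ d) = 0` of degree `d = d j`, a divisor of `m`, and of even
dimension `2 h`, where `l = 0, ..., h = h j` and the coefficients `c_l = c j l` are not zero. -/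
structure DiagonalProduct (k : Type) [Field k] [NumberField k] (m : ℕ) where
  r : ℕ
  d : Fin r → ℕ
  h : Fin r → ℕ
  c : ∀ j, Fin (h j + 1) → 𝓞 k
  dvd : ∀ j, d j ∣ m
  ne_zero : ∀ j l, c j l ≠ 0

/-- The reduction modulo the prime `v` of the field `k`: the residue field, with a generator of the
group of its multiplicative characters and a nontrivial additive character. -/
structure Reduction (k : Type) [Field k] [NumberField k] (v : HeightOneSpectrum (𝓞 k)) extends
    CharField where
  /-- the reduction map -/
  φ : 𝓞 k →+* κ
  surjective : Function.Surjective φ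
  ker : RingHom.ker φ = v.asIdeal

section

variable {k : Type} [Field k] [NumberField k] {m : ℕ}

/-- An index of the eigenbasis of the cohomology of `X`: for each factor the power of the hyperplane
class, or a character, that is a tuple of residues modulo `m`, one for each variable. -/
abbrev Element (X : DiagonalProduct k m) : Type :=
  ∀ j : Fin X.r, Fin (2 * X.h j + 1) ⊕
    ((Fin (X.h j + 1) → ZMod m) × (Fin (X.h j + 1) → ZMod m))

variable {X : DiagonalProduct k m}

/-- All the residues. -/
def residues (b : Element X) : Multiset (ZMod m) :=
  ∑ j, Sum.elim (fun _ => 0) (fun q => univ.val.map q.1 + univ.val.map q.2) (b j)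

/-- The codimension: half of the degree of the cohomology class. -/
def codim (b : Element X) : ℕ :=
  ∑ j, Sum.elim (fun l : Fin (2 * X.h j + 1) => (l : ℕ)) (fun _ => X.h j) (b j)

/-- The basis of the cohomology group of degree `2 i`: the residues of each factor are not zero, they
are killed by the degree, and their sum is zero. -/
def IsBasis (i : ℕ) (b : Element X) : Prop :=
  (∀ j q, b j = Sum.inr q → (∀ l, q.1 l ≠ 0 ∧ (X.d j : ZMod m) * q.1 l = 0 ∧
    q.2 l ≠ 0 ∧ (X.d j : ZMod m) * q.2 l = 0) ∧ ∑ l, q.1 l + ∑ l, q.2 l = 0) ∧ codim b = i

/-- The Hodge types: for each unit `t` the difference `g - h`, times `m`, if the conjugate of the basis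
vector by `t` has the Hodge type `(g, h)`, `g + h = 2 i` (up to the sign of `t`): twice the sum of the
representatives in `(0, m)` of the residues `t a`, minus `m` times the number of the residues. -/
def hodgeType (b : Element X) (t : (ZMod m)ˣ) : ℤ :=
  ((residues b).map fun a => 2 * ((((t : ZMod m) * a).val : ℕ) : ℤ) - m).sum

/-- The residues form a Hodge character: the basis vector and its conjugates are of type `(i, i)`. -/
def IsHodgeElement (b : Element X) : Prop := IsHodge m (residues b)

/-- The class is known to be algebraic: there are no residues, or they form a member of the closure of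
the characters of Fermat surfaces and of the standard characters. -/
def IsKnown (b : Element X) : Prop :=
  residues b = 0 ∨ Generated m (SurfaceCharacter m) (residues b)

/-- The primes of good reduction: `m` and the coefficients are units modulo `v`. -/
def Good (X : DiagonalProduct k m) (v : HeightOneSpectrum (𝓞 k)) : Prop :=
  (m : 𝓞 k) ∉ v.asIdeal ∧ ∀ j l, X.c j l ∉ v.asIdeal

open scoped Classical in
/-- The trace of the Frobenius at `v`, divided by the power of `N(v)` which makes the weight zero, on
the line of the basis vector `b`: a product of normalized Gauss sums (Weil). It is zero if the Frobenius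
maps this line to another one, that is if the order of some residue does not divide `N(v) - 1`. At the
primes of bad reduction we take zero. -/
noncomputable def frob {v : HeightOneSpectrum (𝓞 k)} (R : Reduction k v) (b : Element X) : ℂ :=
  if Good X v then
    ∏ j, Sum.elim (fun _ => 1) (fun q => ∏ l, (gauss R.toCharField (R.φ (X.c j l)) (q.1 l) *
      gauss R.toCharField (R.φ (- X.c j l)) (q.2 l))) (b j)
  else 0

open scoped Classical in
/-- The trace of the Frobenius at `v` on the part of the cohomology group `H ^ (2 i)` of `X`, twisted by
`i`, which is spanned by the basis vectors with the property `P`. -/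
noncomputable def trace [NeZero m] (X : DiagonalProduct k m) (R : ∀ v, Reduction k v) (i : ℕ)
    (P : Element X → Prop) (v : HeightOneSpectrum (𝓞 k)) : ℂ :=
  ∑ b ∈ univ.filter (fun b : Element X => IsBasis i b ∧ P b), frob (R v) b

/-- `L` is, up to a bounded factor, the Dirichlet series with the traces `f` for real `s > 1`: its
logarithm is `∑_v f(v) N(v) ^ (-s)` up to a bounded function. -/
def IsLFunction (f : HeightOneSpectrum (𝓞 k) → ℂ) (L : ℝ → ℝ) : Prop :=
  ∃ C : ℝ, ∀ s : ℝ, 1 < s → s < 2 → 0 < L s ∧
    |Real.log (L s) - ∑' v, (f v).re * (Ideal.absNorm v.asIdeal : ℝ) ^ (-s)| ≤ C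

end

/-- The function `L` has a pole of order `n` at `1` (a zero of order `- n`): `(s - 1) ^ n L(s)` has a
finite nonzero limit for real `s > 1` tending to `1`. -/
def HasPole (L : ℝ → ℝ) (n : ℤ) : Prop :=
  ∃ c : ℝ, c ≠ 0 ∧ Tendsto (fun s : ℝ => (s - 1) ^ n * L s) (𝓝[>] 1) (𝓝 c)

/-- The number of the odd prime divisors of `m`, plus one if `4` divides `m`. -/
def rank (m : ℕ) : ℕ := (m.primeFactors.filter fun q => q ≠ 2 ∨ 4 ∣ m).card

end Pool.Agent.H547_q
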