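import Mathlib

/-!
# The eigenvalues of Frobenius: normalized Gauss sums
-/

set_option autoImplicit false

namespace Pool.Agent.H547_q

open Finset

/-- A finite field with a generator of the group of its multiplicative characters, and a nontrivial
additive character. -/
structure CharField where
  /-- the field -/
  κ : Type
  [field : Field κ]
  [fintype : Fintype κ]
  /-- the multiplicative character -/
  χ : MulChar κ ℂ
  orderOf_χ : orderOf χ = Fintype.card κ - 1
  /-- the additive character -/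
  ψ : AddChar κ ℂ
  primitive : ψ.IsPrimitive

attribute [instance] CharField.field CharField.fintype

/-- The normalized Gauss sum: if the order of the residue `a` modulo `m` divides `q - 1`, this is
`- g(χ_a) χ_a(c)⁻¹ / √q`, where `χ_a` is the power of `χ` with exponent `(q - 1) a / m`; otherwise it
is zero. -/
noncomputable def gauss {m : ℕ} (F : CharField) (c : F.κ) (a : ZMod m) : ℂ :=
  if addOrderOf a ∣ Fintype.card F.κ - 1 then
    -(gaussSum (F.χ ^ ((Fintype.card F.κ - 1) * a.val / m)) F.ψ *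
      ((F.χ ^ ((Fintype.card F.κ - 1) * a.val / m)) c)⁻¹ / (Real.sqrt (Fintype.card F.κ) : ℂ))
  else 0

section

variable {m : ℕ} [NeZero m] (F : CharField)

lemma two_le_card : 2 ≤ Fintype.card F.κ := Fintype.one_lt_card

lemma exp_mul {a : ZMod m} (h : addOrderOf a ∣ Fintype.card F.κ - 1) :
    m * ((Fintype.card F.κ - 1) * a.val / m) = (Fintype.card F.κ - 1) * a.val := by
  apply Nat.mul_div_cancel'
  have h1 : m ∣ addOrderOf a * a.val := by
    rw [← ZMod.natCast_eq_zero_iff]
    push_cast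
    rw [ZMod.natCast_zmod_val, ← nsmul_eq_mul]
    exact addOrderOf_nsmul_eq_zero a
  exact h1.trans (Nat.mul_dvd_mul_right h _)

lemma exp_pos {a : ZMod m} (ha : a ≠ 0) (h : addOrderOf a ∣ Fintype.card F.κ - 1) :
    0 < (Fintype.card F.κ - 1) * a.val / m ∧
      (Fintype.card F.κ - 1) * a.val / m < Fintype.card F.κ - 1 := by
  have h1 := exp_mul F h
  have hv : 0 < a.val := Nat.pos_of_ne_zero fun h0 => ha ((ZMod.val_eq_zero a).mp h0)
  have hv2 : a.val < m := ZMod.val_lt a
  have hc := two_le_card F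
  have hm : 0 < m := Nat.pos_of_ne_zero (NeZero.ne m)
  set e := (Fintype.card F.κ - 1) * a.val / m
  have hN : 0 < Fintype.card F.κ - 1 := by omega
  constructor
  · apply Nat.pos_of_ne_zero
    intro h0
    rw [h0, mul_zero] at h1
    have := Nat.mul_pos hN hv
    omega
  · by_contra hlt
    push Not at hlt
    have h2 : (Fintype.card F.κ - 1) * a.val < (Fintype.card F.κ - 1) * m :=
      Nat.mul_lt_mul_of_pos_left hv2 hN
    have h3 : m * (Fintype.card F.κ - 1) ≤ m * e := Nat.mul_le_mul_left _ hlt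
    rw [h1, mul_comm m] at h3
    omega

lemma exp_neg {a : ZMod m} (ha : a ≠ 0) (h : addOrderOf a ∣ Fintype.card F.κ - 1) :
    (Fintype.card F.κ - 1) * (-a).val / m =
      (Fintype.card F.κ - 1) - (Fintype.card F.κ - 1) * a.val / m := by
  have hm : 0 < m := Nat.pos_of_ne_zero (NeZero.ne m)
  have h1 := exp_mul F h
  have h2 := exp_mul F (a := -a) (by rw [addOrderOf_neg]; exact h)
  have h3 := exp_pos F ha h
  have hv : (-a).val = m - a.val := by
    rw [ZMod.neg_val, if_neg ha]
  rw [hv] at h2 ⊢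
  have hv2 : a.val < m := ZMod.val_lt a
  set e := (Fintype.card F.κ - 1) * a.val / m
  set e' := (Fintype.card F.κ - 1) * (m - a.val) / m
  have h4 : m * e' + m * e = m * (Fintype.card F.κ - 1) := by
    rw [h1, h2, ← Nat.mul_add, Nat.sub_add_cancel hv2.le, mul_comm]
  have h5 : e' + e = Fintype.card F.κ - 1 := by
    apply Nat.eq_of_mul_eq_mul_left hm
    rw [Nat.mul_add]
    exact h4
  omega

lemma pow_card_eq_one : F.χ ^ (Fintype.card F.κ - 1) = 1 := by
  rw [← F.orderOf_χ]
  exact pow_orderOf_eq_one _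

lemma pow_ne_one {e : ℕ} (h0 : 0 < e) (h1 : e < Fintype.card F.κ - 1) : F.χ ^ e ≠ 1 := by
  rw [← F.orderOf_χ] at h1
  exact pow_ne_one_of_lt_orderOf h0.ne' h1

lemma chi_neg {a : ZMod m} (ha : a ≠ 0) (h : addOrderOf a ∣ Fintype.card F.κ - 1) :
    F.χ ^ ((Fintype.card F.κ - 1) * (-a).val / m) =
      (F.χ ^ ((Fintype.card F.κ - 1) * a.val / m))⁻¹ := by
  rw [exp_neg F ha h]
  have h3 := exp_pos F ha h
  symm
  apply inv_eq_of_mul_eq_one_left
  rw [← pow_add, Nat.sub_add_cancel h3.2.le, pow_card_eq_one]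

lemma chi_neg_one {z : F.κ} (hz : z ^ m = -1) {a : ZMod m}
    (h : addOrderOf a ∣ Fintype.card F.κ - 1) :
    (F.χ ^ ((Fintype.card F.κ - 1) * a.val / m)) (-1) = 1 := by
  rw [← hz, map_pow, ← MulChar.pow_apply' _ (NeZero.ne m), ← pow_mul, mul_comm _ m, exp_mul F h,
    pow_mul, pow_card_eq_one, one_pow]
  have hz0 : z ≠ 0 := by
    rintro rfl
    rw [zero_pow (NeZero.ne m)] at hz
    exact one_ne_zero (neg_eq_zero.mp hz.symm)
  exact MulChar.one_apply (isUnit_iff_ne_zero.mpr hz0)

lemma conj_gauss {z : F.κ} (hz : z ^ m = -1) {c : F.κ} {a : ZMod m} (ha : a ≠ 0) :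
    gauss F c (-a) = (starRingEnd ℂ) (gauss F c a) := by
  unfold gauss
  rw [addOrderOf_neg]
  split_ifs with h
  · rw [chi_neg F ha h]
    set χ' := F.χ ^ ((Fintype.card F.κ - 1) * a.val / m) with hχ'
    have h1 : χ' (-1) = 1 := chi_neg_one F hz h
    have h2 : (starRingEnd ℂ) (gaussSum χ' F.ψ) = gaussSum χ'⁻¹ F.ψ := by
      have h3 := star_gaussSum_eq χ' F.ψ
      rw [starRingEnd_apply, h3]
      have h4 := mul_gaussSum_inv_eq_gaussSum χ'⁻¹ F.ψ
      have h5 : χ'⁻¹ (-1) = 1 := by
        rw [MulChar.inv_apply_eq_inv', h1, inv_one]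
      rw [h5, one_mul] at h4
      exact h4
    have h3 : (starRingEnd ℂ) (χ' c) = χ'⁻¹ c := MulChar.star_apply' χ' c
    rw [map_neg, map_div₀, map_mul, h2, map_inv₀, h3, Complex.conj_ofReal]
  · rw [map_zero]

lemma norm_gauss_le {c : F.κ} (hc : c ≠ 0) {a : ZMod m} (ha : a ≠ 0) : ‖gauss F c a‖ ≤ 1 := by
  unfold gauss
  split_ifs with h
  · have h3 := exp_pos F ha h
    set χ' := F.χ ^ ((Fintype.card F.κ - 1) * a.val / m) with hχ'
    have hne : χ' ≠ 1 := pow_ne_one F h3.1 h3.2
    have h1 : ‖gaussSum χ' F.ψ‖ ^ 2 = Fintype.card F.κ := by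
      have h4 := gaussSum_mul_gaussSum_eq_card hne F.primitive
      rw [← star_gaussSum_eq χ' F.ψ] at h4
      have h5 : gaussSum χ' F.ψ * star (gaussSum χ' F.ψ) = ((‖gaussSum χ' F.ψ‖ ^ 2 : ℝ) : ℂ) := by
        have := Complex.mul_conj (gaussSum χ' F.ψ)
        rw [starRingEnd_apply] at this
        rw [this, Complex.normSq_eq_norm_sq]
      rw [h5] at h4
      exact_mod_cast h4
    have h2 : ‖χ' c‖ = 1 := by
      have hft : Fintype F.κˣ := Fintype.ofFinite _
      have hu := χ'.apply_mem_rootsOfUnity (Units.mk0 c hc)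
      exact Complex.norm_eq_one_of_mem_rootsOfUnity hu
    have hq : (0 : ℝ) < Fintype.card F.κ := by exact_mod_cast (two_le_card F).trans' (by norm_num)
    rw [norm_neg, norm_div, norm_mul, norm_inv, h2, inv_one, mul_one, Complex.norm_real,
      Real.norm_of_nonneg (Real.sqrt_nonneg _)]
    rw [div_le_one (Real.sqrt_pos.mpr hq)]
    apply Real.le_sqrt_of_sq_le
    rw [h1]
  · simp

end

end Pool.Agent.H547_q
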