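import Mathlib

/-!
# An inequality for hermitian sums over pairs
-/

set_option autoImplicit false

namespace Pool.Agent.H547_q

open Finset

open scoped Classical in
/-- The sum of `Θ x * conj (Θ z)` over the pairs with the same `f` and `γ z = γ x - e` is bounded by
the one for `e = 0`. -/
theorem pair_ineq {α T Γ : Type*} [AddCommGroup Γ] (X : Finset α) (f : α → T) (γ : α → Γ)
    (Θ : α → ℂ) (e : Γ) :
    ‖∑ q ∈ (X ×ˢ X).filter (fun q => f q.1 = f q.2 ∧ γ q.2 = γ q.1 - e),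
        Θ q.1 * (starRingEnd ℂ) (Θ q.2)‖ ≤
      (∑ q ∈ (X ×ˢ X).filter (fun q => f q.1 = f q.2 ∧ γ q.2 = γ q.1),
        Θ q.1 * (starRingEnd ℂ) (Θ q.2)).re := by
  let S : T → Γ → ℂ := fun t g => ∑ x ∈ X.filter (fun x => f x = t ∧ γ x = g), Θ x
  let I : Finset Γ := X.image γ
  have hS0 : ∀ t g, g ∉ I → S t g = 0 := by
    intro t g hg
    simp only [S]
    apply sum_eq_zero
    intro x hx
    rw [mem_filter] at hx
    exact absurd (mem_image.2 ⟨x, hx.1, hx.2.2⟩) hg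
  have key : ∀ e : Γ, ∑ q ∈ (X ×ˢ X).filter (fun q => f q.1 = f q.2 ∧ γ q.2 = γ q.1 - e),
        Θ q.1 * (starRingEnd ℂ) (Θ q.2) =
      ∑ t ∈ X.image f, ∑ g ∈ I, S t g * (starRingEnd ℂ) (S t (g - e)) := by
    intro e
    have h1 : ((X ×ˢ X).filter (fun q => f q.1 = f q.2 ∧ γ q.2 = γ q.1 - e)) =
        (X.image f).biUnion fun t => I.biUnion fun g : Γ =>
          (X.filter fun x => f x = t ∧ γ x = g) ×ˢ (X.filter fun x => f x = t ∧ γ x = g - e) := by
      ext q
      simp only [mem_filter, mem_biUnion, mem_image, mem_product, I]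
      constructor
      · rintro ⟨⟨hq1, hq2⟩, h1, h2⟩
        exact ⟨f q.1, ⟨q.1, hq1, rfl⟩, γ q.1, ⟨q.1, hq1, rfl⟩, ⟨hq1, rfl, rfl⟩, hq2, h1.symm, h2⟩
      · rintro ⟨t, _, g, _, ⟨hq1, h1, h2⟩, hq2, h3, h4⟩
        exact ⟨⟨hq1, hq2⟩, h1.trans h3.symm, by rw [h4, h2]⟩
    rw [h1, sum_biUnion]
    · refine sum_congr rfl fun t _ => ?_
      rw [sum_biUnion]
      · refine sum_congr rfl fun g _ => ?_
        rw [sum_product]
        simp only [S]
        rw [map_sum, sum_mul_sum]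
      · intro g _ g' _ hgg
        rw [Function.onFun, disjoint_left]
        intro q hq hq'
        rw [mem_product, mem_filter] at hq hq'
        exact hgg (hq.1.2.2.symm.trans hq'.1.2.2)
    · intro t _ t' _ htt
      rw [Function.onFun, disjoint_left]
      intro q hq hq'
      simp only [mem_biUnion, mem_product, mem_filter] at hq hq'
      obtain ⟨g, _, hq, _⟩ := hq
      obtain ⟨g', _, hq', _⟩ := hq'
      exact htt (hq.2.1.symm.trans hq'.2.1)
  have key0 := key 0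
  simp only [sub_zero] at key0
  rw [key e, key0]
  have h5 : (∑ t ∈ X.image f, ∑ g ∈ I, S t g * (starRingEnd ℂ) (S t g)).re =
      ∑ t ∈ X.image f, ∑ g ∈ I, ‖S t g‖ ^ 2 := by
    rw [Complex.re_sum]
    refine sum_congr rfl fun t _ => ?_
    rw [Complex.re_sum]
    refine sum_congr rfl fun g _ => ?_
    rw [Complex.mul_conj, Complex.ofReal_re, Complex.normSq_eq_norm_sq]
  rw [h5]
  refine (norm_sum_le _ _).trans (sum_le_sum fun t _ => ?_)
  refine (norm_sum_le _ _).trans ?_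
  have h6 : ∑ g ∈ I, ‖S t (g - e)‖ ^ 2 ≤ ∑ g ∈ I, ‖S t g‖ ^ 2 := by
    have h4 : ∑ g ∈ I, ‖S t (g - e)‖ ^ 2 = ∑ g ∈ I.image (fun g => g - e), ‖S t g‖ ^ 2 :=
      (Finset.sum_image (f := fun g => ‖S t g‖ ^ 2) (s := I) (g := fun g => g - e)
        (fun a _ b _ hab => sub_left_injective hab)).symm
    rw [h4, ← sum_filter_add_sum_filter_not _ (fun g => g ∈ I)]
    have h5 : ∑ g ∈ (I.image (fun g => g - e)).filter (fun g => g ∉ I), ‖S t g‖ ^ 2 = 0 := by
      refine sum_eq_zero fun g hg => ?_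
      rw [hS0 t g (mem_filter.1 hg).2, norm_zero]
      norm_num
    rw [h5, add_zero]
    exact sum_le_sum_of_subset_of_nonneg (fun g hg => (mem_filter.1 hg).2)
      fun _ _ _ => by positivity
  have h7 : ∑ g ∈ I, ‖S t g * (starRingEnd ℂ) (S t (g - e))‖ ≤
      ∑ g ∈ I, (‖S t g‖ ^ 2 + ‖S t (g - e)‖ ^ 2) / 2 := by
    refine sum_le_sum fun g _ => ?_
    rw [norm_mul, Complex.norm_conj]
    nlinarith [sq_nonneg (‖S t g‖ - ‖S t (g - e)‖)]
  refine h7.trans ?_
  rw [← sum_div, sum_add_distrib]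
  linarith

end Pool.Agent.H547_q
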