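import Mathlib

/-!
# Convergence of the sum over the primes of a number field
-/

set_option autoImplicit false

namespace Pool.Agent.H547_q

open Finset NumberField IsDedekindDomain Filter Topology Ideal

variable (k : Type) [Field k] [NumberField k]

lemma summable_card_near : ∃ᶠ s : ℝ in 𝓝[>] 1,
    LSeriesSummable (fun n : ℕ => ((Nat.card {I : Ideal (𝓞 k) // absNorm I = n} : ℕ) : ℂ)) s := by
  have h := tendsto_sub_one_mul_dedekindZeta_nhdsGT k
  have h1 : ∀ᶠ s : ℝ in 𝓝[>] 1, ((s : ℂ) - 1) * dedekindZeta k s ≠ 0 := by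
    have h2 : ((dedekindZeta_residue k : ℝ) : ℂ) ≠ 0 := by
      exact_mod_cast dedekindZeta_residue_ne_zero k
    exact h.eventually_ne h2
  refine (h1.mono fun s hs => ?_).frequently
  by_contra hn
  apply hs
  have : dedekindZeta k s = 0 := by
    unfold dedekindZeta LSeries
    exact tsum_eq_zero_of_not_summable hn
  rw [this, mul_zero]

lemma summable_card {σ : ℝ} (hσ : 1 < σ) :
    Summable fun n : ℕ => (Nat.card {I : Ideal (𝓞 k) // absNorm I = n} : ℝ) * (n : ℝ) ^ (-σ) := by
  obtain ⟨s, hs, hs1⟩ := ((summable_card_near k).and_eventually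
    (Ioo_mem_nhdsGT hσ)).exists
  have h1 := hs.norm
  refine Summable.of_nonneg_of_le (fun n => by positivity) (fun n => ?_) h1
  rw [LSeries.norm_term_eq]
  split_ifs with hn
  · rw [hn, Nat.cast_zero, Real.zero_rpow (by linarith), mul_zero]
  · have hn1 : (1 : ℝ) ≤ n := by exact_mod_cast Nat.one_le_iff_ne_zero.mpr hn
    rw [Complex.ofReal_re, Complex.norm_natCast, div_eq_mul_inv]
    refine mul_le_mul_of_nonneg_left ?_ (Nat.cast_nonneg _)
    rw [← Real.rpow_neg (by linarith)]
    exact Real.rpow_le_rpow_of_exponent_le hn1 (by linarith [hs1.2])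

lemma card_le_card (s : Finset (HeightOneSpectrum (𝓞 k))) (n : ℕ) :
    (s.filter fun v => absNorm v.asIdeal = n).card ≤ Nat.card {I : Ideal (𝓞 k) // absNorm I = n} := by
  classical
  have hfin : Finite {I : Ideal (𝓞 k) // absNorm I = n} :=
    Set.Finite.to_subtype (Ideal.finite_setOfPred_absNorm_eq n)
  have h1 : (s.filter fun v => absNorm v.asIdeal = n).card =
      Nat.card {v // v ∈ s.filter fun v => absNorm v.asIdeal = n} := by
    rw [Nat.card_eq_fintype_card, Fintype.card_coe]
  rw [h1]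
  refine Nat.card_le_card_of_injective
    (fun v => ⟨v.1.asIdeal, (mem_filter.mp v.2).2⟩) ?_
  intro v v' h
  apply Subtype.ext
  apply HeightOneSpectrum.ext
  exact congrArg Subtype.val h

lemma summable_of_card {α : Type*} (N : α → ℕ) (c : ℕ → ℕ) {σ : ℝ}
    (hc : Summable fun n : ℕ => (c n : ℝ) * (n : ℝ) ^ (-σ))
    (h : ∀ (s : Finset α) (n : ℕ), (s.filter fun v => N v = n).card ≤ c n) :
    Summable fun v : α => (N v : ℝ) ^ (-σ) := by
  classical
  refine summable_of_sum_le (c := ∑' n : ℕ, (c n : ℝ) * (n : ℝ) ^ (-σ))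
    (fun v => by positivity) fun s => ?_
  rw [← sum_fiberwise_of_maps_to (t := s.image N) (g := N) (fun v hv => mem_image_of_mem N hv)]
  refine le_trans (sum_le_sum fun n _ => ?_)
    (hc.sum_le_tsum (s.image N) (fun n _ => by positivity))
  have h1 : ∑ v ∈ s.filter (fun v => N v = n), (N v : ℝ) ^ (-σ) =
      ((s.filter fun v => N v = n).card : ℝ) * (n : ℝ) ^ (-σ) := by
    rw [← nsmul_eq_mul, ← sum_const]
    refine sum_congr rfl fun v hv => ?_
    rw [(mem_filter.mp hv).2]
  rw [h1]
  refine mul_le_mul_of_nonneg_right ?_ (by positivity)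
  exact_mod_cast h s n

/-- The sum over the primes converges. -/
theorem summable_primes {σ : ℝ} (hσ : 1 < σ) :
    Summable fun v : HeightOneSpectrum (𝓞 k) => (absNorm v.asIdeal : ℝ) ^ (-σ) :=
  summable_of_card (fun v : HeightOneSpectrum (𝓞 k) => absNorm v.asIdeal)
    (fun n => Nat.card {I : Ideal (𝓞 k) // absNorm I = n}) (summable_card k hσ)
    (fun s n => card_le_card k s n)

end Pool.Agent.H547_q
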