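import Pool.Agent.H547_q.Trace
import Pool.Agent.H547_q.Summ

/-!
# Orders of poles
-/

set_option autoImplicit false

namespace Pool.Agent.H547_q

open Finset NumberField IsDedekindDomain Filter Topology Pool.Agent.H916R2

lemma tendsto_log_atTop :
    Tendsto (fun s : ℝ => Real.log (1 / (s - 1))) (𝓝[>] 1) atTop := by
  refine Real.tendsto_log_atTop.comp ?_
  have h1 : Tendsto (fun s : ℝ => s - 1) (𝓝[>] 1) (𝓝[>] 0) := by
    refine tendsto_nhdsWithin_iff.mpr ⟨?_, ?_⟩
    · have h2 : Tendsto (fun s : ℝ => s - 1) (𝓝 1) (𝓝 (1 - 1)) :=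
        (continuous_id.sub continuous_const).tendsto 1
      rw [sub_self] at h2
      exact h2.mono_left nhdsWithin_le_nhds
    · filter_upwards [self_mem_nhdsWithin] with s hs
      exact Set.mem_Ioi.mpr (sub_pos.mpr (Set.mem_Ioi.mp hs))
  have h3 := tendsto_inv_nhdsGT_zero.comp h1
  simpa [one_div, Function.comp_def] using h3

lemma log_pos_of {s : ℝ} (h1 : 1 < s) (h2 : s < 2) : 0 < Real.log (1 / (s - 1)) := by
  apply Real.log_pos
  rw [lt_div_iff₀ (by linarith)]
  linarith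

lemma pole_log {L : ℝ → ℝ} {n : ℤ} (hL : ∀ s, 1 < s → s < 2 → 0 < L s) (h : HasPole L n) :
    Tendsto (fun s => Real.log (L s) / Real.log (1 / (s - 1))) (𝓝[>] 1) (𝓝 n) := by
  obtain ⟨c, hc, h⟩ := h
  have hI : ∀ᶠ s : ℝ in 𝓝[>] 1, 1 < s ∧ s < 2 := Ioo_mem_nhdsGT (by norm_num)
  have h1 : Tendsto (fun s : ℝ => Real.log ((s - 1) ^ n * L s)) (𝓝[>] 1) (𝓝 (Real.log c)) :=
    h.log hc
  have h2 : Tendsto (fun s : ℝ => Real.log ((s - 1) ^ n * L s) / Real.log (1 / (s - 1)))
      (𝓝[>] 1) (𝓝 0) := h1.div_atTop tendsto_log_atTop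
  have h3 := h2.add (tendsto_const_nhds (x := (n : ℝ)))
  rw [zero_add] at h3
  refine h3.congr' ?_
  filter_upwards [hI] with s hs
  have hp : 0 < s - 1 := by linarith [hs.1]
  have hl := log_pos_of hs.1 hs.2
  have hL1 := hL s hs.1 hs.2
  rw [Real.log_mul (zpow_pos hp n).ne' hL1.ne', Real.log_zpow]
  have h5 : Real.log (1 / (s - 1)) = - Real.log (s - 1) := by
    rw [one_div, Real.log_inv]
  rw [h5] at hl ⊢
  have hne : Real.log (s - 1) ≠ 0 := by
    intro h0
    rw [h0] at hl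
    simp at hl
  field_simp
  ring

section

variable {k : Type} [Field k] [NumberField k]

lemma summable_of_bound {f : HeightOneSpectrum (𝓞 k) → ℂ} {B : ℝ} (hB : ∀ v, ‖f v‖ ≤ B) {s : ℝ}
    (hs : 1 < s) : Summable fun v : HeightOneSpectrum (𝓞 k) =>
      (f v).re * (Ideal.absNorm v.asIdeal : ℝ) ^ (-s) := by
  have h1 := (summable_primes k hs).mul_left B
  refine Summable.of_norm_bounded h1 fun v => ?_
  have hN : (0 : ℝ) ≤ (Ideal.absNorm v.asIdeal : ℝ) ^ (-s) := by positivity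
  rw [norm_mul, Real.norm_of_nonneg hN]
  exact mul_le_mul_of_nonneg_right
    ((Complex.abs_re_le_norm (f v)).trans (hB v)) hN

/-- The comparison of the orders of the poles. -/
theorem pole_le {t f n g : HeightOneSpectrum (𝓞 k) → ℂ} {C Bf Bn Bg : ℝ}
    (ht : ∀ v, t v = f v + n v) (hf : ∀ v, ‖f v‖ ≤ C * (g v).re) (hBf : ∀ v, ‖f v‖ ≤ Bf)
    (hBn : ∀ v, ‖n v‖ ≤ Bn) (hBg : ∀ v, ‖g v‖ ≤ Bg) {L Ln Lg : ℝ → ℝ} {N N' : ℤ}
    (hL : IsLFunction t L) (hLn : IsLFunction n Ln) (hLg : IsLFunction g Lg)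
    (hN : HasPole L N) (hNn : HasPole Ln 0) (hNg : HasPole Lg N') : (N : ℝ) ≤ C * N' := by
  obtain ⟨C1, h1⟩ := hL
  obtain ⟨C2, h2⟩ := hLn
  obtain ⟨C3, h3⟩ := hLg
  have e1 := pole_log (fun s hs hs' => (h1 s hs hs').1) hN
  have e2 := pole_log (fun s hs hs' => (h2 s hs hs').1) hNn
  have e3 := pole_log (fun s hs hs' => (h3 s hs hs').1) hNg
  have hI : ∀ᶠ s : ℝ in 𝓝[>] 1, 1 < s ∧ s < 2 := Ioo_mem_nhdsGT (by norm_num)
  -- the constants divided by the logarithm tend to zero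
  have e4 : Tendsto (fun s : ℝ => (C1 + C2 + |C| * C3) / Real.log (1 / (s - 1))) (𝓝[>] 1)
      (𝓝 0) := tendsto_const_nhds.div_atTop tendsto_log_atTop
  have e5 := (e2.add (e3.const_mul C)).add e4
  have e6 : ((0 : ℤ) : ℝ) + C * N' + 0 = C * N' := by push_cast; ring
  rw [e6] at e5
  refine le_of_tendsto_of_tendsto e1 e5 ?_
  filter_upwards [hI] with s hs
  have hl := log_pos_of hs.1 hs.2
  obtain ⟨_, a1⟩ := h1 s hs.1 hs.2
  obtain ⟨_, a2⟩ := h2 s hs.1 hs.2
  obtain ⟨_, a3⟩ := h3 s hs.1 hs.2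
  have sf := summable_of_bound hBf hs.1
  have sn := summable_of_bound hBn hs.1
  have sg := summable_of_bound hBg hs.1
  have b1 : ∑' v, (t v).re * (Ideal.absNorm v.asIdeal : ℝ) ^ (-s) =
      ∑' v, (f v).re * (Ideal.absNorm v.asIdeal : ℝ) ^ (-s) +
        ∑' v, (n v).re * (Ideal.absNorm v.asIdeal : ℝ) ^ (-s) := by
    rw [← sf.tsum_add sn]
    refine tsum_congr fun v => ?_
    rw [ht v, Complex.add_re]
    ring
  have b2 : ∑' v, (f v).re * (Ideal.absNorm v.asIdeal : ℝ) ^ (-s) ≤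
      C * ∑' v, (g v).re * (Ideal.absNorm v.asIdeal : ℝ) ^ (-s) := by
    rw [← tsum_mul_left]
    refine sf.tsum_le_tsum (fun v => ?_) (sg.mul_left C)
    rw [← mul_assoc]
    refine mul_le_mul_of_nonneg_right ?_ (by positivity)
    exact ((Complex.re_le_norm _).trans (hf v))
  rw [b1] at a1
  have c1 := abs_le.mp a1
  have c2 := abs_le.mp a2
  have c3 : C * ∑' v, (g v).re * (Ideal.absNorm v.asIdeal : ℝ) ^ (-s) ≤
      C * Real.log (Lg s) + |C| * C3 := by
    have d1 : C * (∑' v, (g v).re * (Ideal.absNorm v.asIdeal : ℝ) ^ (-s) - Real.log (Lg s)) ≤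
        |C| * C3 := by
      refine (le_abs_self _).trans ?_
      rw [abs_mul, abs_sub_comm]
      exact mul_le_mul_of_nonneg_left a3 (abs_nonneg _)
    linarith
  have d2 : Real.log (L s) ≤ Real.log (Ln s) + C * Real.log (Lg s) + (C1 + C2 + |C| * C3) := by
    linarith [c1.1, c1.2, c2.1, c2.2]
  calc Real.log (L s) / Real.log (1 / (s - 1)) ≤
      (Real.log (Ln s) + C * Real.log (Lg s) + (C1 + C2 + |C| * C3)) / Real.log (1 / (s - 1)) :=
        div_le_div_of_nonneg_right d2 hl.le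
    _ = _ := by ring

end

section

variable {k : Type} [Field k] [NumberField k] {m : ℕ} [NeZero m] (X : DiagonalProduct k m)

lemma norm_frob_le {v : HeightOneSpectrum (𝓞 k)} (R : Reduction k v) {i : ℕ} {b : Element X}
    (hb : IsBasis i b) : ‖frob R b‖ ≤ 1 := by
  unfold frob
  split_ifs with hv
  · rw [norm_prod]
    refine prod_le_one (fun j _ => norm_nonneg _) fun j _ => ?_
    rcases hbj : b j with l | q
    · simp
    · simp only [Sum.elim_inr]
      rw [norm_prod]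
      refine prod_le_one (fun l _ => norm_nonneg _) fun l _ => ?_
      have h1 := (hb.1 j q hbj).1 l
      have hc : R.φ (X.c j l) ≠ 0 := good_ne R (hv.2 j l)
      have hc' : R.φ (- X.c j l) ≠ 0 := by rw [map_neg]; exact neg_ne_zero.mpr hc
      rw [norm_mul]
      exact mul_le_one₀ (norm_gauss_le R.toCharField hc h1.1) (norm_nonneg _)
        (norm_gauss_le R.toCharField hc' h1.2.2.1)
  · simp

lemma norm_trace_le (R : ∀ v, Reduction k v) (i : ℕ) (P : Element X → Prop)
    (v : HeightOneSpectrum (𝓞 k)) : ‖trace X R i P v‖ ≤ Fintype.card (Element X) := by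
  classical
  unfold trace
  refine (norm_sum_le _ _).trans ?_
  refine (sum_le_sum (g := fun _ => (1 : ℝ)) fun b hb => norm_frob_le X (R v)
    (mem_filter.mp hb).2.1).trans ?_
  rw [sum_const, nsmul_eq_mul, mul_one]
  exact_mod_cast card_le_univ _

lemma trace_add (R : ∀ v, Reduction k v) (i : ℕ) (P : Element X → Prop)
    (v : HeightOneSpectrum (𝓞 k)) :
    trace X R i (fun _ => True) v = trace X R i P v + trace X R i (fun b => ¬ P b) v := by
  classical
  unfold trace
  have h := sum_filter_add_sum_filter_not (univ.filter fun b : Element X => IsBasis i b)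
    (fun b => P b) (fun b => frob (R v) b)
  rw [filter_filter, filter_filter] at h
  refine Eq.trans (sum_congr ?_ fun _ _ => rfl) (h.symm.trans ?_)
  · ext b
    simp
  · congr 1
    refine sum_congr ?_ fun _ _ => rfl
    ext b
    simp

end

end Pool.Agent.H547_q
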