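import Pool.Agent.H547_q.Split
import Pool.Agent.H547_h.General

/-!
# The trace of Frobenius on the Hodge classes and on the known algebraic classes
-/

set_option autoImplicit false

namespace Pool.Agent.H547_q

open Finset NumberField IsDedekindDomain Filter Topology Pool.Agent.H916R2 Pool.Agent.H547_h

section

variable {k : Type} [Field k] [NumberField k] {m : ℕ} {X : DiagonalProduct k m}

lemma mem_residues {b : Element X} {a : ZMod m} (ha : a ∈ residues b) :
    ∃ j q, b j = Sum.inr q ∧ ∃ l, q.1 l = a ∨ q.2 l = a := by
  unfold residues at ha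
  rw [Multiset.mem_sum] at ha
  obtain ⟨j, _, hj⟩ := ha
  rcases hb : b j with l | q
  · rw [hb] at hj; simp at hj
  · rw [hb] at hj
    simp only [Sum.elim_inr, Multiset.mem_add, Multiset.mem_map] at hj
    refine ⟨j, q, hb, ?_⟩
    rcases hj with ⟨l, _, hl⟩ | ⟨l, _, hl⟩
    · exact ⟨l, Or.inl hl⟩
    · exact ⟨l, Or.inr hl⟩

lemma basis_props {i : ℕ} {b : Element X} (hb : IsBasis i b) :
    (0 : ZMod m) ∉ residues b ∧ Even (Multiset.card (residues b)) := by
  constructor
  · intro h0
    obtain ⟨j, q, hj, l, hl⟩ := mem_residues h0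
    have h1 := (hb.1 j q hj).1 l
    rcases hl with hl | hl
    · exact h1.1 hl
    · exact h1.2.2.1 hl
  · unfold residues
    have h1 : ∀ s : Finset (Fin X.r), Even (Multiset.card (∑ j ∈ s,
        Sum.elim (fun _ => (0 : Multiset (ZMod m)))
        (fun q : (Fin (X.h j + 1) → ZMod m) × (Fin (X.h j + 1) → ZMod m) =>
          univ.val.map q.1 + univ.val.map q.2) (b j))) := by
      intro s
      induction s using Finset.induction_on with
      | empty => simp
      | insert j s hj ih =>
        rw [sum_insert hj, Multiset.card_add]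
        refine Even.add ?_ ih
        rcases b j with l | q
        · simp
        · simp
    exact h1 univ

/-- the vector of the values of the sawtooth function -/
def wt (m : ℕ) (a : ZMod m) (t : (ZMod m)ˣ) : ℤ := saw ((t : ZMod m) * a)

lemma wt_sum (s : Multiset (ZMod m)) (t : (ZMod m)ˣ) :
    (s.map fun a => saw ((t : ZMod m) * a)).sum = (s.map (wt m)).sum t := by
  induction s using Multiset.induction_on with
  | empty => simp
  | cons a s ih => simp only [Multiset.map_cons, Multiset.sum_cons, Pi.add_apply, ih, wt]

/-- The Hodge type in terms of the sawtooth function. -/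
lemma hodgeType_eq [NeZero m] {i : ℕ} {b : Element X} (hb : IsBasis i b) :
    hodgeType b = ((residues b).map (wt m)).sum := by
  funext t
  rw [← wt_sum]
  unfold hodgeType
  congr 1
  refine Multiset.map_congr rfl fun a ha => ?_
  rw [saw_of_ne_zero]
  apply unit_mul_ne_zero
  rintro rfl
  exact (basis_props hb).1 ha

/-- Hodge characters in terms of the sawtooth function -/
lemma hodge_iff [NeZero m] {i : ℕ} {b : Element X} (hb : IsBasis i b) :
    IsHodgeElement b ↔ ((residues b).map (wt m)).sum = 0 := by
  have hp := basis_props hb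
  constructor
  · intro h
    funext t
    rw [← wt_sum, h.saw_sum t]
    rfl
  · intro h
    refine isHodge_of_saw hp.1 hp.2 fun t => ?_
    rw [wt_sum, h]
    rfl

end

section

variable {k : Type} [Field k] [NumberField k] {m : ℕ} [NeZero m] (X : DiagonalProduct k m)

/-- **The trace of the Frobenius on the part with a given Hodge type is bounded by a constant times the
trace on the known classes.** -/
theorem type_le_known (R : ∀ v, Reduction k v) (i : ℕ) (u : (ZMod m)ˣ → ℤ)
    (v : HeightOneSpectrum (𝓞 k)) :
    ‖trace X R i (fun b => hodgeType b = u) v‖ ≤ 2 ^ (2 ^ (rank m - 1) - 1) *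
      (trace X R i (fun b => IsHodgeElement b ∧ IsKnown b) v).re := by
  classical
  obtain ⟨hTf, hTc⟩ := tors_main (cQ m (SurfaceCharacter m)) cQ_oddDist
  let Q := (ZMod m → ℤ) ⧸ (LL m (SurfaceCharacter m))
  let γ : ZMod m → ((ZMod m)ˣ → ℤ) × Q := fun a => (wt m a, cQ m (SurfaceCharacter m) a)
  have hγ : ∀ a, γ (-a) = - γ a := fun a => by
    refine Prod.ext ?_ ?_
    · funext t
      simp only [γ, wt, mul_neg, saw_neg, Prod.neg_mk, Pi.neg_apply]
    · exact cQ_oddDist.neg a
  have hγs : ∀ s : Multiset (ZMod m), (s.map γ).sum =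
      ((s.map (wt m)).sum, (s.map (cQ m (SurfaceCharacter m))).sum) := by
    intro s
    induction s using Multiset.induction_on with
    | empty => rfl
    | cons a s ih =>
      rw [Multiset.map_cons, Multiset.sum_cons, ih]
      simp only [Multiset.map_cons, Multiset.sum_cons]
      rfl
  let S : ((ZMod m)ˣ → ℤ) × Q → Finset (Element X) := fun e =>
    univ.filter (fun b : Element X => IsBasis i b ∧ ((residues b).map γ).sum = e)
  have hSe : ∀ e, ‖∑ b ∈ S e, frob (R v) b‖ ≤ (∑ b ∈ S 0, frob (R v) b).re := by
    intro e
    have h := trace_class X (R v) i γ hγ e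
    calc _ = _ := by congr!
      _ ≤ _ := h
      _ = _ := by congr!
  have h0 : 0 ≤ (∑ b ∈ S 0, frob (R v) b).re := (norm_nonneg _).trans (hSe 0)
  -- the known part
  have hK : trace X R i (fun b => IsHodgeElement b ∧ IsKnown b) v =
      ∑ b ∈ S 0, frob (R v) b := by
    unfold trace
    refine sum_congr ?_ fun _ _ => rfl
    ext b
    simp only [mem_filter, mem_univ, true_and, S]
    constructor
    · rintro ⟨h1, h2, h3⟩
      refine ⟨h1, ?_⟩
      rw [hγs, (hodge_iff h1).mp h2]
      refine Prod.ext rfl ?_
      rcases h3 with h3 | h3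
      · rw [h3]; simp
      · exact cQ_sum_eq_zero h3
    · rintro ⟨h1, h3⟩
      rw [hγs, Prod.ext_iff] at h3
      have hH := (hodge_iff h1).mpr h3.1
      refine ⟨h1, hH, ?_⟩
      by_cases hne : residues b = 0
      · exact Or.inl hne
      · right
        have hbase : ∀ s, SurfaceCharacter m s → (0 : ZMod m) ∉ s ∧ Even (Multiset.card s) :=
          fun s h => ⟨h.1.1, h.1.2.1⟩
        have hbn : ∀ s, SurfaceCharacter m s → SurfaceCharacter m (s.map Neg.neg) := by
          rintro s ⟨h1, h2⟩
          exact ⟨h1.neg, by rw [Multiset.card_map]; exact h2⟩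
        refine generated_of_mem_LL hbase hbn hH.1 hH.2.1 hne ?_
        have h4 : ((residues b).map (cQ m (SurfaceCharacter m))).sum = 0 := h3.2
        rw [cQ_sum, QuotientAddGroup.eq_zero_iff] at h4
        exact h4
  rw [hK]
  -- the part with the Hodge type `u`
  by_cases hex : ∃ b₀ : Element X, IsBasis i b₀ ∧ hodgeType b₀ = u
  swap
  · have hzero : trace X R i (fun b => hodgeType b = u) v = 0 := by
      unfold trace
      refine sum_eq_zero fun b hb => absurd ⟨b, ?_⟩ hex
      simpa only [mem_filter, mem_univ, true_and] using hb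
    rw [hzero, norm_zero]
    exact mul_nonneg (by positivity) h0
  obtain ⟨b₀, hb₀, hu₀⟩ := hex
  let q₀ : Q := ((residues b₀).map (cQ m (SurfaceCharacter m))).sum
  let E : Finset Q := hTf.toFinset.image fun q => q + q₀
  have hH : trace X R i (fun b => hodgeType b = u) v =
      ∑ e ∈ E, ∑ b ∈ S (u, e), frob (R v) b := by
    unfold trace
    rw [← sum_biUnion]
    · refine sum_congr ?_ fun _ _ => rfl
      ext b
      simp only [mem_filter, mem_univ, true_and, mem_biUnion, S]
      constructor
      · rintro ⟨h1, h2⟩
        refine ⟨((residues b).map (cQ m (SurfaceCharacter m))).sum, ?_, h1, ?_⟩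
        · simp only [E, mem_image, Set.Finite.mem_toFinset]
          refine ⟨((residues b).map (cQ m (SurfaceCharacter m))).sum - q₀,
            ⟨fun a => (((residues b).count a : ℕ) : ℤ) - (((residues b₀).count a : ℕ) : ℤ), ?_, ?_⟩,
            sub_add_cancel _ _⟩
          · intro t
            have e1 := sum_count (residues b) fun a => saw ((t : ZMod m) * a)
            have e2 := sum_count (residues b₀) fun a => saw ((t : ZMod m) * a)
            rw [wt_sum, ← hodgeType_eq h1, h2] at e1
            rw [wt_sum, ← hodgeType_eq hb₀, hu₀] at e2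
            simp only [smul_eq_mul] at e1 e2
            simp only [sub_mul, sum_sub_distrib]
            rw [e1, e2, sub_self]
          · simp only [sub_smul, sum_sub_distrib]
            rw [sum_count, sum_count]
        · rw [hγs, ← hodgeType_eq h1, h2]
      · rintro ⟨e, _, h1, h2⟩
        rw [hγs, ← hodgeType_eq h1] at h2
        exact ⟨h1, congrArg Prod.fst h2⟩
    · intro e _ e' _ hee
      rw [Function.onFun, disjoint_left]
      intro b hb hb'
      rw [mem_filter] at hb hb'
      exact hee (congrArg Prod.snd (hb.2.2.symm.trans hb'.2.2))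
  rw [hH]
  refine (norm_sum_le _ _).trans ((sum_le_sum fun e _ => hSe (u, e)).trans ?_)
  rw [sum_const, nsmul_eq_mul]
  refine mul_le_mul_of_nonneg_right ?_ h0
  have hc : E.card ≤ 2 ^ (2 ^ (rank m - 1) - 1) := by
    refine card_image_le.trans ?_
    rw [← Set.ncard_eq_toFinset_card _ hTf]
    exact hTc
  exact_mod_cast hc

end

end Pool.Agent.H547_q
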